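import Pool.Agent.Helper303.MbMain

/-!
# The forms of the starting library with the parameter `J` as large as we like

The proof of `big` is the proof of `Pool.Agent.Helper303.Mb.not_bounded` with the form made explicit.
-/

set_option autoImplicit false
set_option linter.unusedSectionVars false

open MeasureTheory Set Complex
open scoped Real Topology ComplexConjugate ContDiff

namespace Pool.Agent.Y532.MB

open Pool.Agent.Helper303.Mb

variable {ι : Type} [Fintype ι] [DecidableEq ι] {B : Blk ι}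

/-- as `not_bounded` of the starting library, with the form made explicit and `J` large -/
theorem big (B : Blk ι) : ∃ C₀ : ℝ, 0 ≤ C₀ ∧ ∀ D : Set (ι → ℂ), IsOpen D → D ⊆ CB B →
    (∀ z ∈ D, ‖z‖ ≤ 1) → (∀ z0 zi z1, Pos z0 zi z1 → sl B z0 zi z1 ∈ D) → ∀ (K : ℝ) (J1 : ℕ),
    ∃ J N : ℕ, J1 ≤ J ∧ 1 ≤ J ∧ (∀ k, ContDiffOn ℝ ∞ (dbar k (uu B J N)) D) ∧
      (∀ x ∈ D, ∀ j k, dbar k (dbar j (uu B J N)) x = dbar j (dbar k (uu B J N)) x) ∧
      (∀ x ∈ D, ∀ k, ‖dbar k (uu B J N) x‖ ≤ C₀) ∧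
      ∀ (u : (ι → ℂ) → ℂ) (b : ℝ), AEStronglyMeasurable u (volume.restrict D) →
        (∀ᵐ x ∂(volume.restrict D), ‖u x‖ ≤ b) →
        SolvesDbar D u (fun z k => dbar k (uu B J N) z) → K < b := by
  obtain ⟨C₀, hC0, hform⟩ := form_bound B
  refine ⟨C₀, hC0, ?_⟩
  intro D hDo hDC hD1 hD K J1
  -- choice of `J`
  set κ := Real.exp (-1) * (∫ x, kap x ^ 6) ^ 3 with hκ
  have hκ0 : 0 < κ := mul_pos (Real.exp_pos _) (pow_pos kap_six_pos 3)
  obtain ⟨m0, hm0⟩ := exists_nat_gt (|K| * |Kc| / κ)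
  obtain ⟨m, hmd⟩ : ∃ m, m = max m0 J1 := ⟨_, rfl⟩
  have hm : |K| * |Kc| / κ < (m : ℝ) := by
    refine hm0.trans_le ?_
    rw [hmd]
    exact_mod_cast le_max_left m0 J1
  have hmJ : J1 ≤ m := by
    rw [hmd]
    exact le_max_right m0 J1
  set J := (m + 1) ^ 2 with hJd
  have hJ : 1 ≤ J := Nat.one_le_pow _ _ (by omega)
  have hJ1J : J1 ≤ J := by
    have : m + 1 ≤ (m + 1) ^ 2 := Nat.le_self_pow (by norm_num) _
    omega
  have hsq : Real.sqrt J = m + 1 := by
    rw [hJd]
    push_cast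
    exact Real.sqrt_sq (by positivity)
  obtain ⟨N₀, hN₀⟩ := hform J hJ
  set N := max N₀ (96 * J ^ 2) with hN
  have hN1 : N₀ ≤ N := le_max_left _ _
  have hN2 : 96 * J ^ 2 ≤ N := le_max_right _ _
  have hJ2 : 1 ≤ J ^ 2 := Nat.one_le_pow _ _ hJ
  have hN3 : 1 ≤ N := by omega
  have hN4 : 1 ≤ (N : ℝ) * (1 / (48 * (J : ℝ) ^ 2)) / 2 := by
    have h1 : (96 * (J : ℝ) ^ 2) ≤ N := by exact_mod_cast hN2
    have hJpos : (0 : ℝ) < J := by exact_mod_cast hJ
    have e : (N : ℝ) * (1 / (48 * (J : ℝ) ^ 2)) / 2 = N / (96 * (J : ℝ) ^ 2) := by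
      field_simp
      ring
    rw [e, le_div_iff₀ (by positivity)]
    linarith
  have hsm : ContDiffOn ℝ ∞ (uu B J N) D := fun z hz => (smooth_uu hJ (hDC hz)).contDiffWithinAt
  have hgs : ∀ k, ContDiffOn ℝ ∞ (dbar k (uu B J N)) D := fun k => contDiffOn_dbar hDo hsm k
  refine ⟨J, N, hJ1J, hJ, hgs, ?_, ?_, ?_⟩
  · intro x hx j k
    have h2 : ContDiffAt ℝ 2 (uu B J N) x := (smooth_uu hJ (hDC hx)).of_le (by norm_cast)
    exact dbar_comm h2 k j
  · intro x hx k
    exact hN₀ N hN1 x (hDC hx) (hD1 x hx) k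
  · intro u b hum hub hsol
    -- bounded holomorphic difference
    have huuc : ContinuousOn (uu B J N) D := hsm.continuousOn
    have hdiffm : AEStronglyMeasurable (fun z => u z - uu B J N z) (volume.restrict D) :=
      hum.sub (huuc.aestronglyMeasurable hDo.measurableSet)
    have hb1 : ∀ᵐ x ∂(volume.restrict D), ‖u x - uu B J N x‖ ≤ b + J * (25 * Real.exp 2) := by
      filter_upwards [hub, ae_restrict_mem hDo.measurableSet] with x hx hxD
      exact (norm_sub_le _ _).trans (add_le_add hx (uu_bound hJ hN4 (hDC hxD)))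
    have hw : ∀ j : ι, ∀ φ, IsTest D φ → ∫ x in D, (u x - uu B J N x) * dbar j φ x = 0 := by
      intro j φ hφ
      have i1 : Integrable (fun x => u x * dbar j φ x) (volume.restrict D) :=
        ((hφ.continuous_dbar j).integrable_of_hasCompactSupport
          (hφ.hcs_dbar j)).integrableOn.bdd_mul hum hub
      have i2 : Integrable (fun x => uu B J N x * dbar j φ x) (volume.restrict D) :=
        (integrable_mul_of_cs hDo huuc (hφ.continuous_dbar j) (hφ.hcs_dbar j)
          (hφ.tsupport_dbar j)).integrableOn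
      have e1 := hsol j φ hφ
      have e2 := ibp hDo (hsm.of_le (by norm_cast)) hφ j
      have : ∫ x in D, (u x - uu B J N x) * dbar j φ x =
          (∫ x in D, u x * dbar j φ x) - ∫ x in D, uu B J N x * dbar j φ x := by
        rw [← integral_sub i1 i2]
        apply integral_congr_ae
        filter_upwards with x
        ring
      rw [this, e1, e2]
      ring
    obtain ⟨H, hH, hHae⟩ := weyl hDo hdiffm hb1 hw
    have hHb : ∀ z ∈ D, ‖H z‖ ≤ b + J * (25 * Real.exp 2) := by
      apply ae_to_all hDo (fun z hz => (hH z hz).continuousAt)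
      filter_upwards [hHae, hb1] with x h1 h2
      rw [← h1]
      exact h2
    have hUb : ∀ z ∈ D, ‖uu B J N z + H z‖ ≤ b := by
      apply ae_to_all hDo (fun z hz => (smooth_uu hJ (hDC hz)).continuousAt.add
        (hH z hz).continuousAt)
      filter_upwards [hHae, hub] with x h1 h2
      show ‖uu B J N x + H x‖ ≤ b
      rw [← h1]
      simpa using h2
    have hz0 : sl B 1 1 1 ∈ D := hD 1 1 1 ⟨by simp, by norm_num⟩
    have hb0 : 0 ≤ b := (norm_nonneg _).trans (hUb _ hz0)
    have hM0 : 0 ≤ b + J * (25 * Real.exp 2) := by positivity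
    have hmain := main_ineq hD hDC hH hM0 hHb hJ hN3 hb0 hUb
    by_contra hKb
    push Not at hKb
    have hr : Real.sqrt J * Real.sqrt J = J := Real.mul_self_sqrt (by positivity)
    have hr0 : 0 < Real.sqrt J := by rw [hsq]; positivity
    have h1 : (Real.sqrt J) * (Real.sqrt J * κ) ≤ Real.sqrt J * (|K| * |Kc|) := by
      calc (Real.sqrt J) * (Real.sqrt J * κ) = J * κ := by rw [← mul_assoc, hr]
        _ ≤ b * (Real.sqrt J * Kc) := hmain
        _ ≤ b * (Real.sqrt J * |Kc|) :=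
            mul_le_mul_of_nonneg_left (mul_le_mul_of_nonneg_left (le_abs_self Kc) hr0.le) hb0
        _ ≤ |K| * (Real.sqrt J * |Kc|) := by
            have hbK : b ≤ |K| := hKb.trans (le_abs_self K)
            gcongr
        _ = Real.sqrt J * (|K| * |Kc|) := by ring
    have h2 : Real.sqrt J * κ ≤ |K| * |Kc| := le_of_mul_le_mul_left h1 hr0
    rw [div_lt_iff₀ hκ0] at hm
    rw [hsq] at h2
    nlinarith


end Pool.Agent.Y532.MB
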