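import Pool.Agent.Helper303.MbCalc
import Pool.Agent.Helper303.MbBound

/-!
# From a locally finite sequence of forms to one form without bounded solution
-/

set_option autoImplicit false

set_option linter.unusedSectionVars false

open MeasureTheory Set
open scoped ContDiff Topology BoundedContinuousFunction ENNReal

namespace Pool.Agent.Y532.MB

open Pool.Agent.Helper303.Mb

section clm

theorem ae_norm_le {X : Type*} [MeasurableSpace X] {μ : Measure X} (u : Lp ℂ ∞ μ) :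
    ∀ᵐ x ∂μ, ‖u x‖ ≤ ‖u‖ := by
  have h := ae_le_eLpNormEssSup (f := (u : X → ℂ)) (μ := μ)
  have hfin : eLpNormEssSup (u : X → ℂ) μ ≠ (⊤ : ℝ≥0∞) := by
    have := Lp.eLpNorm_ne_top u
    rwa [eLpNorm_exponent_top] at this
  filter_upwards [h] with x hx
  rw [Lp.norm_def, eLpNorm_exponent_top, ← toReal_enorm (u x)]
  exact ENNReal.toReal_mono hfin hx

theorem exists_clm {X : Type*} [MeasurableSpace X] (μ : Measure X) {h : X → ℂ}
    (hh : Integrable h μ) :
    ∃ Λ : Lp ℂ ∞ μ →L[ℂ] ℂ, ∀ u : Lp ℂ ∞ μ, Λ u = ∫ x, u x * h x ∂μ := by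
  have hb : ∀ u : Lp ℂ ∞ μ, ∀ᵐ x ∂μ, ‖u x‖ ≤ ‖u‖ := ae_norm_le
  have hint : ∀ u : Lp ℂ ∞ μ, Integrable (fun x => u x * h x) μ := fun u =>
    hh.bdd_mul (Lp.aestronglyMeasurable u) (hb u)
  refine ⟨LinearMap.mkContinuous
    { toFun := fun u : Lp ℂ ∞ μ => ∫ x, u x * h x ∂μ
      map_add' := ?_
      map_smul' := ?_ } (∫ x, ‖h x‖ ∂μ) ?_, fun u => rfl⟩
  · intro u v
    rw [← integral_add (hint u) (hint v)]
    apply integral_congr_ae
    filter_upwards [Lp.coeFn_add u v] with x hx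
    rw [hx, Pi.add_apply, add_mul]
  · intro c u
    rw [RingHom.id_apply, smul_eq_mul, ← integral_const_mul]
    apply integral_congr_ae
    filter_upwards [Lp.coeFn_smul c u] with x hx
    rw [hx, Pi.smul_apply, smul_eq_mul, mul_assoc]
  · intro u
    calc ‖∫ x, u x * h x ∂μ‖ ≤ ∫ x, ‖u x * h x‖ ∂μ := norm_integral_le_integral_norm _
      _ ≤ ∫ x, ‖u‖ * ‖h x‖ ∂μ := by
          apply integral_mono_ae (hint u).norm (hh.norm.const_mul _)
          filter_upwards [hb u] with x hx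
          rw [norm_mul]
          exact mul_le_mul_of_nonneg_right hx (norm_nonneg _)
      _ = (∫ x, ‖h x‖ ∂μ) * ‖u‖ := by rw [integral_const_mul, mul_comm]

end clm

variable {ι : Type} [Fintype ι] [DecidableEq ι]

/-- local finiteness -/
def LF (D : Set (ι → ℂ)) (g : ℕ → (ι → ℂ) → (ι → ℂ)) : Prop :=
  ∀ z ∈ D, ∃ K : ℕ, ∃ V : Set (ι → ℂ), IsOpen V ∧ z ∈ V ∧
    ∀ k, K ≤ k → ∀ x ∈ V, ∀ j, g k x j = 0

theorem lf_compact {D : Set (ι → ℂ)} {g : ℕ → (ι → ℂ) → (ι → ℂ)} (h : LF D g)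
    {S : Set (ι → ℂ)} (hS : IsCompact S) (hSD : S ⊆ D) :
    ∃ K : ℕ, ∀ k, K ≤ k → ∀ x ∈ S, ∀ j, g k x j = 0 := by
  refine hS.induction_on (p := fun S => ∃ K : ℕ, ∀ k, K ≤ k → ∀ x ∈ S, ∀ j, g k x j = 0)
    ?_ ?_ ?_ ?_
  · exact ⟨0, fun k _ x hx => absurd hx (Set.notMem_empty x)⟩
  · rintro s t hst ⟨K, hK⟩
    exact ⟨K, fun k hk x hx => hK k hk x (hst hx)⟩
  · rintro s t ⟨K, hK⟩ ⟨K', hK'⟩
    refine ⟨max K K', fun k hk x hx j => ?_⟩
    rcases hx with hx | hx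
    · exact hK k (le_trans (le_max_left _ _) hk) x hx j
    · exact hK' k (le_trans (le_max_right _ _) hk) x hx j
  · intro x hx
    obtain ⟨K, V, hVo, hxV, hV⟩ := h x (hSD hx)
    exact ⟨V, mem_nhdsWithin_of_mem_nhds (hVo.mem_nhds hxV), K,
      fun k hk y hy j => hV k hk y hy j⟩

/-- the sum `∑ c_k 2^(-k) g_k` -/
noncomputable def gsum (g : ℕ → (ι → ℂ) → (ι → ℂ)) (c : ℕ → ℂ) (x : ι → ℂ) (j : ι) : ℂ :=
  ∑' k, c k * (1 / 2) ^ k * g k x j

theorem gsum_eq {g : ℕ → (ι → ℂ) → (ι → ℂ)} {c : ℕ → ℂ} {x : ι → ℂ} {K : ℕ}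
    (h : ∀ k, K ≤ k → ∀ j, g k x j = 0) (j : ι) :
    gsum g c x j = ∑ k ∈ Finset.range K, c k * (1 / 2) ^ k * g k x j := by
  unfold gsum
  apply tsum_eq_sum
  intro k hk
  rw [Finset.mem_range, not_lt] at hk
  rw [h k hk j, mul_zero]

theorem gsum_smooth {D : Set (ι → ℂ)} (hD : IsOpen D) {g : ℕ → (ι → ℂ) → (ι → ℂ)}
    (hg : ∀ k j, ContDiffOn ℝ ∞ (fun x => g k x j) D) (h : LF D g) (c : ℕ → ℂ) (j : ι) :
    ContDiffOn ℝ ∞ (fun x => gsum g c x j) D := by
  intro z hz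
  obtain ⟨K, V, hVo, hzV, hV⟩ := h z hz
  apply ContDiffAt.contDiffWithinAt
  have he : (fun x => gsum g c x j) =ᶠ[𝓝 z]
      fun x => ∑ k ∈ Finset.range K, c k * (1 / 2) ^ k * g k x j := by
    filter_upwards [hVo.mem_nhds hzV] with y hy
    exact gsum_eq (fun k hk j => hV k hk y hy j) j
  refine ContDiffAt.congr_of_eventuallyEq ?_ he
  apply ContDiffAt.sum
  intro k _
  exact contDiffAt_const.mul ((hg k j).contDiffAt (hD.mem_nhds hz))

theorem dbar_const_mul {φ : (ι → ℂ) → ℂ} {z : ι → ℂ} (h : DifferentiableAt ℝ φ z) (a : ℂ) (k : ι) :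
    dbar k (fun z => a * φ z) z = a * dbar k φ z := by
  unfold dbar
  rw [fderiv_const_mul h]
  simp only [FunLike.coe_smul, Pi.smul_apply, smul_eq_mul]
  ring

theorem gsum_closed {D : Set (ι → ℂ)} (hD : IsOpen D) {g : ℕ → (ι → ℂ) → (ι → ℂ)}
    (hg : ∀ k j, ContDiffOn ℝ ∞ (fun x => g k x j) D)
    (hcl : ∀ n, ∀ x ∈ D, ∀ j k, dbar k (fun x => g n x j) x = dbar j (fun x => g n x k) x)
    (h : LF D g) (c : ℕ → ℂ) :
    ∀ x ∈ D, ∀ j k, dbar k (fun x => gsum g c x j) x = dbar j (fun x => gsum g c x k) x := by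
  intro z hz
  obtain ⟨K, V, hVo, hzV, hV⟩ := h z hz
  have key : ∀ j k, dbar k (fun x => gsum g c x j) z =
      ∑ n ∈ Finset.range K, c n * (1 / 2) ^ n * dbar k (fun x => g n x j) z := by
    intro j k
    have he : (fun x => gsum g c x j) =ᶠ[𝓝 z]
        fun x => ∑ k ∈ Finset.range K, c k * (1 / 2) ^ k * g k x j := by
      filter_upwards [hVo.mem_nhds hzV] with y hy
      exact gsum_eq (fun k hk j => hV k hk y hy j) j
    have hdiff : ∀ n j, DifferentiableAt ℝ (fun x => g n x j) z := fun n j =>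
      ((hg n j).contDiffAt (hD.mem_nhds hz)).differentiableAt (by simp)
    have h1 : dbar k (fun x => gsum g c x j) z =
        dbar k (fun x => ∑ k ∈ Finset.range K, c k * (1 / 2) ^ k * g k x j) z := by
      unfold dbar
      rw [he.fderiv_eq]
    rw [h1, dbar_finsum (Finset.range K) (F := fun n x => c n * (1 / 2) ^ n * g n x j)
      (fun n _ => (hdiff n j).const_mul _) k]
    apply Finset.sum_congr rfl
    intro n _
    exact dbar_const_mul (hdiff n j) _ k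
  intro j k
  rw [key j k, key k j]
  apply Finset.sum_congr rfl
  intro n _
  rw [hcl n z hz j k]

theorem gsum_bound {D : Set (ι → ℂ)} {g : ℕ → (ι → ℂ) → (ι → ℂ)} {C M : ℝ}
    (hb : ∀ n, ∀ x ∈ D, ∀ j, ‖g n x j‖ ≤ C) (h : LF D g) {c : ℕ → ℂ} (hM : ∀ k, ‖c k‖ ≤ M) :
    ∀ x ∈ D, ∀ j, ‖gsum g c x j‖ ≤ 2 * (M * C) := by
  intro z hz j
  obtain ⟨K, V, hVo, hzV, hV⟩ := h z hz
  have hM0 : 0 ≤ M := (norm_nonneg _).trans (hM 0)
  have hC0 : 0 ≤ C := (norm_nonneg _).trans (hb 0 z hz j)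
  rw [gsum_eq (fun k hk j => hV k hk z hzV j) j]
  calc ‖∑ k ∈ Finset.range K, c k * (1 / 2) ^ k * g k z j‖
      ≤ ∑ k ∈ Finset.range K, ‖c k * (1 / 2) ^ k * g k z j‖ := norm_sum_le _ _
    _ ≤ ∑ k ∈ Finset.range K, (M * C) * (1 / 2) ^ k := by
        apply Finset.sum_le_sum
        intro k _
        rw [norm_mul, norm_mul, norm_pow]
        have e : ‖(1 / 2 : ℂ)‖ = 1 / 2 := by norm_num
        rw [e]
        calc ‖c k‖ * (1 / 2) ^ k * ‖g k z j‖ ≤ M * (1 / 2) ^ k * C := by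
              have := hM k
              have := hb k z hz j
              gcongr
          _ = (M * C) * (1 / 2) ^ k := by ring
    _ = (M * C) * ∑ k ∈ Finset.range K, (1 / 2 : ℝ) ^ k := by rw [Finset.mul_sum]
    _ ≤ (M * C) * 2 := by
        apply mul_le_mul_of_nonneg_left _ (by positivity)
        calc ∑ k ∈ Finset.range K, (1 / 2 : ℝ) ^ k ≤ ∑' k : ℕ, (1 / 2 : ℝ) ^ k :=
              summable_geometric_two.sum_le_tsum _ (fun _ _ => by positivity)
          _ = 2 := tsum_geometric_two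
    _ = 2 * (M * C) := by ring

theorem gsum_integral {D : Set (ι → ℂ)} (hD : IsOpen D) {g : ℕ → (ι → ℂ) → (ι → ℂ)}
    (hg : ∀ k j, ContDiffOn ℝ ∞ (fun x => g k x j) D) {φ : (ι → ℂ) → ℂ} (hφ : IsTest D φ)
    {K : ℕ} (hK : ∀ k, K ≤ k → ∀ x ∈ tsupport φ, ∀ j, g k x j = 0) (c : ℕ → ℂ) (j : ι) :
    ∫ x in D, gsum g c x j * φ x =
      ∑ k ∈ Finset.range K, c k * ((1 / 2) ^ k * ∫ x in D, g k x j * φ x) := by
  have hi : ∀ k, Integrable (fun x => g k x j * φ x) (volume.restrict D) := fun k =>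
    (integrable_mul_of_cs hD (hg k j).continuousOn hφ.1.continuous hφ.2.1 hφ.2.2).integrableOn
  have h1 : ∀ x, gsum g c x j * φ x =
      ∑ k ∈ Finset.range K, c k * (1 / 2) ^ k * (g k x j * φ x) := by
    intro x
    by_cases hx : x ∈ tsupport φ
    · rw [gsum_eq (fun k hk j => hK k hk x hx j) j, Finset.sum_mul]
      apply Finset.sum_congr rfl
      intro k _
      ring
    · rw [image_eq_zero_of_notMem_tsupport hx]
      simp
  simp_rw [h1]
  rw [integral_finsetSum _ (fun k _ => (hi k).const_mul _)]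
  apply Finset.sum_congr rfl
  intro k _
  rw [integral_const_mul, mul_assoc]

/-- one form without bounded solution -/
theorem exists_bad {D : Set (ι → ℂ)} (hD : IsOpen D) {g : ℕ → (ι → ℂ) → (ι → ℂ)}
    (hgs : ∀ k j, ContDiffOn ℝ ∞ (fun x => g k x j) D) (hLF : LF D g)
    (hbig : ∀ (k : ℕ) (u : (ι → ℂ) → ℂ) (b : ℝ), AEStronglyMeasurable u (volume.restrict D) →
      (∀ᵐ x ∂(volume.restrict D), ‖u x‖ ≤ b) → SolvesDbar D u (g k) → 4 ^ k < b) :
    ∃ c : ℕ → ℂ, (∃ M : ℝ, ∀ k, ‖c k‖ ≤ M) ∧ ∀ (u : (ι → ℂ) → ℂ) (b : ℝ),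
      AEStronglyMeasurable u (volume.restrict D) →
      (∀ᵐ x ∂(volume.restrict D), ‖u x‖ ≤ b) → ¬ SolvesDbar D u (gsum g c) := by
  classical
  by_contra hcon
  push Not at hcon
  have hΛ : ∀ (j : ι) (φ : (ι → ℂ) → ℂ), IsTest D φ →
      ∃ Λ : (ℕ →ᵇ ℂ) × Lp ℂ ∞ (volume.restrict D) →L[ℂ] ℂ, ∀ (c : ℕ →ᵇ ℂ)
        (u : Lp ℂ ∞ (volume.restrict D)),
        Λ (c, u) = (∫ x in D, u x * dbar j φ x) + ∫ x in D, gsum g c x j * φ x := by
    intro j φ hφ
    obtain ⟨K, hK⟩ := lf_compact hLF hφ.2.1 hφ.2.2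
    have hint : Integrable (dbar j φ) (volume.restrict D) :=
      ((hφ.continuous_dbar j).integrable_of_hasCompactSupport (hφ.hcs_dbar j)).integrableOn
    obtain ⟨Λ₂, hΛ₂⟩ := exists_clm (volume.restrict D) hint
    refine ⟨Λ₂.comp (ContinuousLinearMap.snd ℂ _ _) +
      (∑ k ∈ Finset.range K, ((1 / 2) ^ k * ∫ x in D, g k x j * φ x) •
        BoundedContinuousFunction.evalCLM ℂ (k : ℕ)).comp (ContinuousLinearMap.fst ℂ _ _), ?_⟩
    intro c u
    rw [gsum_integral hD hgs hφ hK c j, ← hΛ₂ u]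
    simp only [add_apply, ContinuousLinearMap.comp_apply,
      ContinuousLinearMap.coe_snd', ContinuousLinearMap.coe_fst', sum_apply,
      smul_apply, BoundedContinuousFunction.evalCLM_apply, smul_eq_mul]
    congr 1
    apply Finset.sum_congr rfl
    intro k _
    ring
  choose Λ hΛ using hΛ
  let S : Submodule ℂ ((ℕ →ᵇ ℂ) × Lp ℂ ∞ (volume.restrict D)) :=
    { carrier := {p | ∀ (j : ι) (φ : (ι → ℂ) → ℂ) (h : IsTest D φ), Λ j φ h p = 0}
      add_mem' := by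
        intro p q hp hq j φ h
        rw [map_add, hp j φ h, hq j φ h, add_zero]
      zero_mem' := by
        intro j φ h
        rw [map_zero]
      smul_mem' := by
        intro a p hp j φ h
        rw [map_smul, hp j φ h, smul_zero] }
  have hSc : IsClosed (S : Set ((ℕ →ᵇ ℂ) × Lp ℂ ∞ (volume.restrict D))) := by
    have : (S : Set ((ℕ →ᵇ ℂ) × Lp ℂ ∞ (volume.restrict D))) =
        ⋂ (j : ι), ⋂ (φ : (ι → ℂ) → ℂ), ⋂ (h : IsTest D φ), (Λ j φ h) ⁻¹' {0} := by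
      ext p
      simp only [Set.mem_iInter, Set.mem_preimage, Set.mem_singleton_iff]
      rfl
    rw [this]
    exact isClosed_iInter fun j => isClosed_iInter fun φ => isClosed_iInter fun h =>
      isClosed_singleton.preimage (Λ j φ h).continuous
  have : CompleteSpace S := hSc.completeSpace_coe
  let T : S →L[ℂ] (ℕ →ᵇ ℂ) := (ContinuousLinearMap.fst ℂ _ _).comp S.subtypeL
  have hsurj : Function.Surjective T := by
    intro c
    obtain ⟨u, b, hu1, hu2, hu3⟩ := hcon c ⟨‖c‖, fun k => c.norm_coe_le_norm k⟩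
    have hmem : MemLp u ∞ (volume.restrict D) := memLp_top_of_bound hu1 b hu2
    refine ⟨⟨(c, hmem.toLp u), ?_⟩, rfl⟩
    intro j φ h
    rw [hΛ j φ h]
    have e : ∫ x in D, (hmem.toLp u : (ι → ℂ) → ℂ) x * dbar j φ x =
        ∫ x in D, u x * dbar j φ x := by
      apply integral_congr_ae
      filter_upwards [hmem.coeFn_toLp] with x hx
      rw [hx]
    rw [e, hu3 j φ h]
    ring
  obtain ⟨C, hC0, hC⟩ := T.exists_preimage_norm_le hsurj
  have hlt : ∀ k : ℕ, (2 : ℝ) ^ k < C := by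
    intro k
    let f : ℕ → ℂ := fun i => if i = k then 1 else 0
    have hf1 : ∀ i, ‖f i‖ ≤ 1 := by
      intro i
      simp only [f]
      split_ifs <;> simp
    let c : ℕ →ᵇ ℂ := BoundedContinuousFunction.ofNormedAddCommGroup f
      continuous_of_discreteTopology 1 hf1
    have hc1 : ‖c‖ ≤ 1 := BoundedContinuousFunction.norm_ofNormedAddCommGroup_le _ zero_le_one _
    have hcv : ∀ i, c i = f i := fun i => rfl
    obtain ⟨x, hx1, hx2⟩ := hC c
    obtain ⟨⟨c', u⟩, hmem⟩ := x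
    have hc' : c' = c := hx1
    subst hc'
    have hu : ‖u‖ ≤ C := by
      have h1 : ‖u‖ ≤ ‖((c, u) : (ℕ →ᵇ ℂ) × Lp ℂ ∞ (volume.restrict D))‖ :=
        norm_snd_le (c, u)
      have h2 : ‖((c, u) : (ℕ →ᵇ ℂ) × Lp ℂ ∞ (volume.restrict D))‖ ≤ C * ‖c‖ := hx2
      calc ‖u‖ ≤ C * ‖c‖ := h1.trans h2
        _ ≤ C * 1 := mul_le_mul_of_nonneg_left hc1 hC0.le
        _ = C := mul_one C
    have hg1 : ∀ x j, gsum g c x j = (1 / 2) ^ k * g k x j := by
      intro x j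
      unfold gsum
      rw [tsum_eq_single k]
      · rw [hcv]
        simp [f]
      · intro i hi
        rw [hcv]
        simp [f, hi]
    have hv1 : AEStronglyMeasurable (fun x => (2 : ℂ) ^ k * u x) (volume.restrict D) :=
      (Lp.aestronglyMeasurable u).const_mul _
    have hv2 : ∀ᵐ x ∂(volume.restrict D), ‖(2 : ℂ) ^ k * u x‖ ≤ 2 ^ k * C := by
      filter_upwards [ae_norm_le u] with x hx
      rw [norm_mul, norm_pow]
      have e : ‖(2 : ℂ)‖ = 2 := by norm_num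
      rw [e]
      exact mul_le_mul_of_nonneg_left (hx.trans hu) (by positivity)
    have hv3 : SolvesDbar D (fun x => (2 : ℂ) ^ k * u x) (g k) := by
      intro j φ h
      have h1 := hmem j φ h
      rw [hΛ j φ h] at h1
      simp_rw [hg1, mul_assoc] at h1
      rw [integral_const_mul] at h1
      show ∫ x in D, (2 : ℂ) ^ k * u x * dbar j φ x = _
      simp_rw [mul_assoc]
      rw [integral_const_mul]
      have h2 : (∫ x in D, u x * dbar j φ x) = -((1 / 2) ^ k * ∫ x in D, g k x j * φ x) :=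
        eq_neg_of_add_eq_zero_left h1
      rw [h2]
      have e : (2 : ℂ) ^ k * (1 / 2) ^ k = 1 := by
        rw [← mul_pow]
        norm_num
      calc (2 : ℂ) ^ k * -((1 / 2) ^ k * ∫ x in D, g k x j * φ x)
          = -(((2 : ℂ) ^ k * (1 / 2) ^ k) * ∫ x in D, g k x j * φ x) := by ring
        _ = _ := by rw [e, one_mul]
    have h4 := hbig k _ _ hv1 hv2 hv3
    have e4 : (4 : ℝ) ^ k = 2 ^ k * 2 ^ k := by
      rw [← mul_pow]
      norm_num
    rw [e4] at h4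
    exact lt_of_mul_lt_mul_left h4 (by positivity)
  obtain ⟨k, hk⟩ := pow_unbounded_of_one_lt C (by norm_num : (1 : ℝ) < 2)
  exact lt_irrefl _ (hk.trans (hlt k))

end Pool.Agent.Y532.MB
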