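import Pool.Agent.Y532.MB.Loc
import Pool.Agent.Y532.MB.Big
import Pool.Agent.Y532.MB.Fun

/-!
# One bounded smooth `∂̄`-closed form without bounded solution
-/

set_option autoImplicit false
set_option linter.unusedSectionVars false

open MeasureTheory Set
open scoped ContDiff Topology

namespace Pool.Agent.Y532.MB

open Pool.Agent.Helper303.Mb

variable {ι : Type} [Fintype ι] [DecidableEq ι]

/-- one form without bounded solution, normalised -/
theorem one_form (B : Blk ι) {D : Set (ι → ℂ)} (hDo : IsOpen D) (hDC : D ⊆ CB B)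
    (hD1 : ∀ z ∈ D, ‖z‖ ≤ 1) (hD : ∀ z0 zi z1, Pos z0 zi z1 → sl B z0 zi z1 ∈ D) :
    ∃ G : (ι → ℂ) → (ι → ℂ), (∀ k, ContDiffOn ℝ ∞ (fun x => G x k) D) ∧
      (∀ x ∈ D, ∀ j k, dbar k (fun x => G x j) x = dbar j (fun x => G x k) x) ∧
      (∀ x ∈ D, ∀ k, ‖G x k‖ ≤ 1) ∧
      ∀ (u : (ι → ℂ) → ℂ) (b : ℝ), AEStronglyMeasurable u (volume.restrict D) →
        (∀ᵐ x ∂(volume.restrict D), ‖u x‖ ≤ b) → ¬ SolvesDbar D u G := by
  obtain ⟨C₀, hC0, hbig⟩ := big B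
  choose J N hJ hJ1 hsm hcl hbd hno using fun k : ℕ => hbig D hDo hDC hD1 hD (4 ^ k) k
  obtain ⟨g, hg⟩ : ∃ g : ℕ → (ι → ℂ) → (ι → ℂ),
      g = fun k z j => dbar j (uu B (J k) (N k)) z := ⟨_, rfl⟩
  have hgs : ∀ k j, ContDiffOn ℝ ∞ (fun x => g k x j) D := by
    intro k j
    rw [hg]
    exact hsm k j
  have hgc : ∀ n, ∀ x ∈ D, ∀ j k, dbar k (fun x => g n x j) x = dbar j (fun x => g n x k) x := by
    intro n x hx j k
    rw [hg]
    exact hcl n x hx j k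
  have hgb : ∀ n, ∀ x ∈ D, ∀ j, ‖g n x j‖ ≤ C₀ := by
    intro n x hx j
    rw [hg]
    exact hbd n x hx j
  have hLF : LF D g := by
    intro z hz
    have hCB : CB B ∈ 𝓝 z := Filter.mem_of_superset (hDo.mem_nhds hz) hDC
    obtain ⟨J0, V, hVo, hzV, hV⟩ := loc_dbar z (hDC hz) hCB
    refine ⟨J0, V, hVo, hzV, fun k hk x hx j => ?_⟩
    rw [hg]
    exact hV (J k) (hk.trans (hJ k)) (hJ1 k) (N k) x hx j
  obtain ⟨c, ⟨M, hM⟩, hc⟩ := exists_bad hDo hgs hLF (fun k u b h1 h2 h3 => hno k u b h1 h2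
    (by rw [hg] at h3; exact h3))
  have hM0 : 0 ≤ M := (norm_nonneg _).trans (hM 0)
  have hb := gsum_bound hgb hLF hM
  set A : ℝ := 2 * (M * C₀) + 1 with hA
  have hA0 : 0 < A := by positivity
  have hAc : (A : ℂ) ≠ 0 := by exact_mod_cast hA0.ne'
  refine ⟨fun x j => (A : ℂ)⁻¹ * gsum g c x j, ?_, ?_, ?_, ?_⟩
  · intro k
    exact contDiffOn_const.mul (gsum_smooth hDo hgs hLF c k)
  · intro x hx j k
    have hd : ∀ j, DifferentiableAt ℝ (fun x => gsum g c x j) x := fun j =>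
      ((gsum_smooth hDo hgs hLF c j).contDiffAt (hDo.mem_nhds hx)).differentiableAt (by simp)
    rw [dbar_const_mul (hd j), dbar_const_mul (hd k), gsum_closed hDo hgs hgc hLF c x hx j k]
  · intro x hx k
    rw [norm_mul, norm_inv, Complex.norm_real, Real.norm_eq_abs, abs_of_pos hA0,
      inv_mul_le_iff₀ hA0, mul_one]
    exact (hb x hx k).trans (by rw [hA]; linarith)
  · intro u b hu1 hu2 hu3
    refine hc (fun x => (A : ℂ) * u x) (A * b) (hu1.const_mul _) ?_ ?_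
    · filter_upwards [hu2] with x hx
      rw [norm_mul, Complex.norm_real, Real.norm_eq_abs, abs_of_pos hA0]
      exact mul_le_mul_of_nonneg_left hx hA0.le
    · intro j φ hφ
      have h1 := hu3 j φ hφ
      simp_rw [mul_assoc] at h1
      rw [integral_const_mul] at h1
      show ∫ x in D, (A : ℂ) * u x * dbar j φ x = _
      simp_rw [mul_assoc]
      rw [integral_const_mul, h1, mul_neg, ← mul_assoc, mul_inv_cancel₀ hAc, one_mul]

/-- the same in bidegree `(r, 1)`; `I` is the set of the indices of the `(r, 0)`-forms -/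
theorem one_form_r (B : Blk ι) {D : Set (ι → ℂ)} (hDo : IsOpen D) (hDC : D ⊆ CB B)
    (hD1 : ∀ z ∈ D, ‖z‖ ≤ 1) (hD : ∀ z0 zi z1, Pos z0 zi z1 → sl B z0 zi z1 ∈ D)
    (I : Type) (hI : Nonempty I) (r : ℕ) :
    ∃ g : (ι → ℂ) → I → ι → ℂ, (∀ i k, ContDiffOn ℝ ∞ (fun x => g x i k) D) ∧
      (∀ x ∈ D, ∀ i j k, dbar k (fun x => g x i j) x = dbar j (fun x => g x i k) x) ∧
      (∀ x ∈ D, ∀ i k, ‖g x i k‖ ≤ 1) ∧
      ∀ f : (ι → ℂ) → I → ℂ, (∀ i, AEStronglyMeasurable (fun x => f x i) (volume.restrict D)) →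
        (∀ i, ∃ b : ℝ, ∀ᵐ x ∂(volume.restrict D), ‖f x i‖ ≤ b) →
        ¬ ∀ i, SolvesDbar D (fun x => f x i) (fun x k => (-1) ^ r * g x i k) := by
  classical
  obtain ⟨G, h1, h2, h3, h4⟩ := one_form B hDo hDC hD1 hD
  obtain ⟨i0⟩ := hI
  refine ⟨fun x _ k => G x k, fun _ k => h1 k, fun x hx _ j k => h2 x hx j k,
    fun x hx _ k => h3 x hx k, ?_⟩
  intro f hf1 hf2 hf3
  obtain ⟨b, hb⟩ := hf2 i0
  refine h4 (fun x => (-1) ^ r * f x i0) b ((hf1 i0).const_mul _) ?_ ?_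
  · filter_upwards [hb] with x hx
    simpa using hx
  · intro j φ hφ
    have h5 := hf3 i0 j φ hφ
    simp_rw [mul_assoc] at h5
    rw [integral_const_mul] at h5
    show ∫ x in D, (-1) ^ r * f x i0 * dbar j φ x = _
    simp_rw [mul_assoc]
    rw [integral_const_mul, h5, mul_neg, ← mul_assoc, ← mul_pow]
    norm_num

end Pool.Agent.Y532.MB
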