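import Pool.Agent.Helper303.MbDom2

/-!
# The forms of the starting library vanish near each point of the domain if `J` is large
-/

set_option autoImplicit false
set_option linter.unusedSectionVars false

open MeasureTheory Set Complex
open scoped Real Topology ContDiff

namespace Pool.Agent.Y532.MB

open Pool.Agent.Helper303.Mb

variable {ι : Type} [Fintype ι] [DecidableEq ι] {B : Blk ι}

/-- holomorphic functions have `∂̄ = 0` -/
theorem dbar_holo {φ : (ι → ℂ) → ℂ} {y : ι → ℂ} (h : DifferentiableAt ℂ φ y) (k : ι) :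
    dbar k φ y = 0 := by
  have h1 : fderiv ℝ φ y = (fderiv ℂ φ y).restrictScalars ℝ :=
    (h.hasFDerivAt.restrictScalars ℝ).fderiv
  have e : (Pi.single k Complex.I : ι → ℂ) = Complex.I • (Pi.single k 1 : ι → ℂ) := by
    ext i
    by_cases hik : i = k
    · subst hik
      simp
    · simp [Pi.single_eq_of_ne hik]
  unfold dbar
  rw [h1, ContinuousLinearMap.coe_restrictScalars', e, map_smul, smul_eq_mul, ← mul_assoc,
    Complex.I_mul_I]
  ring

/-- the coefficient functions of the quadratic form -/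
noncomputable def al (B : Blk ι) (z : ι → ℂ) : ℝ := (Qz B 1 0 z).re
noncomputable def ga (B : Blk ι) (z : ι → ℂ) : ℝ := (Qz B 0 1 z).re
noncomputable def be (B : Blk ι) (z : ι → ℂ) : ℝ := (Qz B 1 1 z).re - al B z - ga B z

theorem cont_Q (x y : ℝ) {z : ι → ℂ} (hz : z ∈ CB B) :
    ContinuousAt (fun z => (Qz B x y z).re) z :=
  Complex.continuous_re.continuousAt.comp (smooth_quot (contDiff_Pz x y) hz).continuousAt

theorem cont_al {z : ι → ℂ} (hz : z ∈ CB B) : ContinuousAt (al B) z := cont_Q 1 0 hz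
theorem cont_ga {z : ι → ℂ} (hz : z ∈ CB B) : ContinuousAt (ga B) z := cont_Q 0 1 hz
theorem cont_be {z : ι → ℂ} (hz : z ∈ CB B) : ContinuousAt (be B) z :=
  ((cont_Q 1 1 hz).sub (cont_al hz)).sub (cont_ga hz)

theorem qr_form {z : ι → ℂ} (hz : z ∈ CB B) (x y : ℝ) :
    qr x y (z B.k11) (z B.k12) (z B.k21) (z B.k22) =
      x ^ 2 * al B z + x * y * be B z + y ^ 2 * ga B z :=
  qr_exp hz x y

theorem ga_pos {z : ι → ℂ} (hz : z ∈ CB B) : 0 < ga B z := Qf_pos hz (Or.inr one_ne_zero)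

theorem disc_pos {z : ι → ℂ} (hz : z ∈ CB B) : 0 < 4 * al B z * ga B z - be B z ^ 2 := by
  have hg := ga_pos hz
  have h : 0 < qr (2 * ga B z) (-be B z) (z B.k11) (z B.k12) (z B.k21) (z B.k22) :=
    Qf_pos hz (Or.inl (by positivity))
  rw [qr_form hz] at h
  have e : (2 * ga B z) ^ 2 * al B z + 2 * ga B z * -be B z * be B z + (-be B z) ^ 2 * ga B z =
      ga B z * (4 * al B z * ga B z - be B z ^ 2) := by ring
  rw [e] at h
  exact (mul_pos_iff_of_pos_left hg).1 h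

theorem lm_ge {z : ι → ℂ} (hz : z ∈ CB B) (j : ℕ) :
    4 * al B z * ga B z - be B z ^ 2 ≤ 4 * ga B z * lm B j z := by
  rw [lm_eq, qr_form hz]
  nlinarith [sq_nonneg (2 * ga B z * j + be B z)]

/-- near each point of `CB B` the cutoffs are inactive if `J` is large -/
theorem loc (z0 : ι → ℂ) (hz0 : z0 ∈ CB B) (hCB : CB B ∈ 𝓝 z0) : ∃ J0 : ℕ, ∃ V : Set (ι → ℂ),
    IsOpen V ∧ z0 ∈ V ∧ V ⊆ CB B ∧ ∀ J : ℕ, J0 ≤ J → 1 ≤ J → ∀ N : ℕ, ∀ z ∈ V,
      uu B J N z = ∑ j ∈ Finset.Icc 1 J, Dz B z ^ 2 * EE B N j z := by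
  have hd := disc_pos hz0
  have hg := ga_pos hz0
  obtain ⟨J0, hJ0⟩ := exists_nat_gt
    (4 * ga B z0 * sg B z0 / (4 * al B z0 * ga B z0 - be B z0 ^ 2))
  rw [div_lt_iff₀ hd] at hJ0
  have hs : ContinuousAt (sg B) z0 := (smooth_sg hz0).continuousAt
  have hc1 : ContinuousAt (fun z => 4 * ga B z * sg B z) z0 :=
    (continuousAt_const.mul (cont_ga hz0)).mul hs
  have hc2 : ContinuousAt (fun z => (J0 : ℝ) * (4 * al B z * ga B z - be B z ^ 2)) z0 :=
    continuousAt_const.mul (((continuousAt_const.mul (cont_al hz0)).mul (cont_ga hz0)).sub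
      ((cont_be hz0).pow 2))
  have hev : ∀ᶠ z in 𝓝 z0, 4 * ga B z * sg B z <
      (J0 : ℝ) * (4 * al B z * ga B z - be B z ^ 2) := hc1.eventually_lt hc2 hJ0
  obtain ⟨V, hV, hVo, hV0⟩ := eventually_nhds_iff.1 (hev.and hCB)
  refine ⟨J0, V, hVo, hV0, fun z hz => (hV z hz).2, ?_⟩
  intro J hJ hJ1 N z hz
  obtain ⟨h1, h2⟩ := hV z hz
  have h2' : z ∈ CB B := h2
  have hg' := ga_pos h2'
  have hd' := disc_pos h2'
  have hs' := sg_pos h2'
  have hJr : (1 : ℝ) ≤ J := by exact_mod_cast hJ1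
  have hJ0r : (J0 : ℝ) ≤ J := by exact_mod_cast hJ
  unfold uu
  apply Finset.sum_congr rfl
  intro j _
  have hw : ww B (1 / (48 * J ^ 2)) j z = 1 := by
    unfold ww
    have hT : Real.smoothTransition (2 * lm B j z / (1 / (48 * (J : ℝ) ^ 2) * sg B z) - 1) = 1 := by
      apply Real.smoothTransition.one_of_one_le
      have hpos : 0 < 1 / (48 * (J : ℝ) ^ 2) * sg B z := by positivity
      rw [le_sub_iff_add_le, le_div_iff₀ hpos]
      have h3 := lm_ge h2' j
      have h4 : 4 * ga B z * sg B z < J * (4 * ga B z * lm B j z) := by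
        calc 4 * ga B z * sg B z < (J0 : ℝ) * (4 * al B z * ga B z - be B z ^ 2) := h1
          _ ≤ J * (4 * al B z * ga B z - be B z ^ 2) := mul_le_mul_of_nonneg_right hJ0r hd'.le
          _ ≤ J * (4 * ga B z * lm B j z) := mul_le_mul_of_nonneg_left h3 (by positivity)
      have h5 : sg B z < J * lm B j z := by
        have : 4 * ga B z * sg B z < 4 * ga B z * (J * lm B j z) := by
          calc _ < _ := h4
            _ = _ := by ring
        exact lt_of_mul_lt_mul_left this (by positivity)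
      have hJ2 : 1 / (48 * (J : ℝ) ^ 2) * sg B z ≤ lm B j z := by
        rw [div_mul_eq_mul_div, one_mul, div_le_iff₀ (by positivity)]
        have hl := lm_pos h2' j
        nlinarith
      linarith
    rw [hT]
    ring
  rw [hw]
  push_cast
  ring

/-- the forms vanish near each point if `J` is large -/
theorem loc_dbar (z0 : ι → ℂ) (hz0 : z0 ∈ CB B) (hCB : CB B ∈ 𝓝 z0) : ∃ J0 : ℕ,
    ∃ V : Set (ι → ℂ), IsOpen V ∧ z0 ∈ V ∧ ∀ J : ℕ, J0 ≤ J → 1 ≤ J → ∀ N : ℕ, ∀ z ∈ V, ∀ k : ι,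
      dbar k (uu B J N) z = 0 := by
  obtain ⟨J0, V, hVo, hV0, hVC, h⟩ := loc z0 hz0 hCB
  refine ⟨J0, V, hVo, hV0, ?_⟩
  intro J hJ hJ1 N z hz k
  have he : uu B J N =ᶠ[𝓝 z] fun z => ∑ j ∈ Finset.Icc 1 J, Dz B z ^ 2 * EE B N j z := by
    filter_upwards [hVo.mem_nhds hz] with y hy
    exact h J hJ hJ1 N y hy
  have h1 : dbar k (uu B J N) z =
      dbar k (fun z => ∑ j ∈ Finset.Icc 1 J, Dz B z ^ 2 * EE B N j z) z := by
    unfold dbar
    rw [he.fderiv_eq]
  rw [h1]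
  apply dbar_holo
  apply DifferentiableAt.fun_sum
  intro j _
  exact ((contDiff_Dz.differentiable (by simp) z).pow 2).fun_mul (diff_EE (hVC hz))

end Pool.Agent.Y532.MB
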